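import Mathlib
import Pool.Agent.H97R2.BP.Defs
import Pool.Agent.H97R2.BP.Defs2

open scoped ComplexOrder InnerProductSpace ComplexConjugate TensorProduct
open Finset H759R2.Kad H710R2.DP

noncomputable section

namespace H97R2.BP

namespace ZZ508

open InnerProductSpace

section

variable {E : Type} [NormedAddCommGroup E] [InnerProductSpace ℂ E] [FiniteDimensional ℂ E]

/-- real part of the trace -/
def tr : (E →L[ℂ] E) →ₗ[ℝ] ℝ where
  toFun T := (LinearMap.trace ℂ E (T : E →ₗ[ℂ] E)).re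
  map_add' S T := by simp
  map_smul' c T := by
    have h : ((c • T : E →L[ℂ] E) : E →ₗ[ℂ] E) = (c : ℂ) • (T : E →ₗ[ℂ] E) := by
      ext x
      simp
    rw [h, map_smul]
    simp

theorem tr_apply (T : E →L[ℂ] E) : tr T = (LinearMap.trace ℂ E (T : E →ₗ[ℂ] E)).re := rfl

theorem tr_continuous : Continuous (tr (E := E)) := LinearMap.continuous_of_finiteDimensional _

theorem tr_rankOne (η : E) (T : E →L[ℂ] E) : tr (rankOne ℂ η η ∘L T) = (⟪η, T η⟫_ℂ).re := by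
  rw [tr_apply, rankOne_comp, InnerProductSpace.trace_rankOne, ContinuousLinearMap.adjoint_inner_left]

variable {ι : Type} [Fintype ι]

/-- the function of the minimax problem -/
def fv (a : ι → (E →L[ℂ] E)) (t : ℝ) (b : ι → (E →L[ℂ] E)) (x : (E →L[ℂ] E) × (E →L[ℂ] E)) : ℝ :=
  t⁻¹ * ∑ i, tr (x.1 ∘L b i ∘L (b i).adjoint) +
    t * ∑ i, tr (x.2 ∘L (a i - b i).adjoint ∘L (a i - b i))

theorem fv_affine (a : ι → (E →L[ℂ] E)) (t : ℝ) (b : ι → (E →L[ℂ] E))
    (x y : (E →L[ℂ] E) × (E →L[ℂ] E)) (s s' : ℝ) :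
    fv a t b (s • x + s' • y) = s * fv a t b x + s' * fv a t b y := by
  have h : ∀ (G F T : E →L[ℂ] E), tr ((s • G + s' • F) ∘L T) = s * tr (G ∘L T) + s' * tr (F ∘L T) := by
    intro G F T
    have : (s • G + s' • F) ∘L T = s • (G ∘L T) + s' • (F ∘L T) := by
      ext z; simp
    rw [this, map_add, map_smul, map_smul]; simp
  simp only [fv, Prod.fst_add, Prod.snd_add, Prod.smul_fst, Prod.smul_snd, h,
    Finset.sum_add_distrib, ← Finset.mul_sum]
  ring

theorem fv_rank1 (a : ι → (E →L[ℂ] E)) (t : ℝ) (b : ι → (E →L[ℂ] E)) (η : E) :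
    fv a t b (rankOne ℂ η η, 0) = t⁻¹ * ∑ i, ‖(b i).adjoint η‖ ^ 2 := by
  have h1 : ∀ i, (⟪η, (b i ∘L (b i).adjoint) η⟫_ℂ).re = ‖(b i).adjoint η‖ ^ 2 := by
    intro i
    rw [ContinuousLinearMap.comp_apply, ← ContinuousLinearMap.adjoint_inner_left,
      inner_self_eq_norm_sq_to_K]
    norm_cast
  simp only [fv, tr_rankOne, h1, ContinuousLinearMap.zero_comp, map_zero, Finset.sum_const_zero,
    mul_zero, add_zero, zero_add]

theorem fv_rank2 (a : ι → (E →L[ℂ] E)) (t : ℝ) (b : ι → (E →L[ℂ] E)) (η : E) :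
    fv a t b (0, rankOne ℂ η η) = t * ∑ i, ‖(a i - b i) η‖ ^ 2 := by
  have h1 : ∀ i, (⟪η, ((a i - b i).adjoint ∘L (a i - b i)) η⟫_ℂ).re = ‖(a i - b i) η‖ ^ 2 := by
    intro i
    rw [ContinuousLinearMap.comp_apply, ContinuousLinearMap.adjoint_inner_right,
      inner_self_eq_norm_sq_to_K]
    norm_cast
  simp only [fv, tr_rankOne, h1, ContinuousLinearMap.zero_comp, map_zero, Finset.sum_const_zero,
    mul_zero, add_zero, zero_add]

variable (E) in
/-- pairs of positive operators of total trace one -/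
def prs : Set ((E →L[ℂ] E) × (E →L[ℂ] E)) :=
  {x | x.1.IsPositive ∧ x.2.IsPositive ∧ tr x.1 + tr x.2 = 1}

theorem tr_rankOne_self (u : E) : tr (rankOne ℂ u u) = ‖u‖ ^ 2 := by
  rw [tr_apply, InnerProductSpace.trace_rankOne, inner_self_eq_norm_sq_to_K]
  norm_cast

/-- a positive operator is bounded by its trace -/
theorem pos_norm_le {G : E →L[ℂ] E} (hG : G.IsPositive) : ‖G‖ ≤ tr G := by
  obtain ⟨m, u, rfl⟩ := ContinuousLinearMap.isPositive_iff_eq_sum_rankOne.mp hG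
  rw [map_sum]
  refine (norm_sum_le _ _).trans (Finset.sum_le_sum fun i _ => ?_)
  rw [tr_rankOne_self, norm_rankOne, sq]

theorem isClosed_pos : IsClosed {G : E →L[ℂ] E | G.IsPositive} := by
  have h : {G : E →L[ℂ] E | G.IsPositive} =
      (⋂ x : E, ⋂ y : E, {G : E →L[ℂ] E | ⟪G x, y⟫_ℂ = ⟪x, G y⟫_ℂ}) ∩
      ⋂ x : E, {G : E →L[ℂ] E | 0 ≤ (⟪G x, x⟫_ℂ).re} := by
    ext G
    simp only [Set.mem_ofPred_eq, Set.mem_inter_iff, Set.mem_iInter]
    constructor
    · intro hG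
      exact ⟨fun x y => hG.1 x y, fun x => hG.2 x⟩
    · rintro ⟨h1, h2⟩
      exact ⟨fun x y => h1 x y, fun x => h2 x⟩
  rw [h]
  have hc : ∀ x : E, Continuous (fun G : E →L[ℂ] E => G x) := fun x =>
    (ContinuousLinearMap.apply ℂ E x).continuous
  refine (isClosed_iInter fun x => isClosed_iInter fun y =>
    isClosed_eq ?_ ?_).inter (isClosed_iInter fun x => isClosed_le continuous_const ?_)
  · exact (hc x).inner continuous_const
  · exact continuous_const.inner (hc y)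
  · exact Complex.continuous_re.comp ((hc x).inner continuous_const)

theorem prs_compact : IsCompact (prs E) := by
  have hp : ProperSpace ((E →L[ℂ] E) × (E →L[ℂ] E)) := FiniteDimensional.proper_rclike ℂ _
  apply Metric.isCompact_of_isClosed_isBounded
  · exact (isClosed_pos.preimage continuous_fst).inter ((isClosed_pos.preimage continuous_snd).inter
      (isClosed_eq ((tr_continuous.comp continuous_fst).add (tr_continuous.comp continuous_snd))
        continuous_const))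
  · apply (Metric.isBounded_closedBall (x := (0 : (E →L[ℂ] E) × (E →L[ℂ] E))) (r := 1)).subset
    rintro ⟨G, F⟩ ⟨h1, h2, h3⟩
    simp only at h1 h2 h3
    have e1 := pos_norm_le h1
    have e2 := pos_norm_le h2
    have e3 := norm_nonneg G
    have e4 := norm_nonneg F
    rw [mem_closedBall_zero_iff, Prod.norm_def]
    apply max_le <;> simp only <;> linarith

theorem prs_convex : Convex ℝ (prs E) := by
  intro x hx y hy s s' hs hs' hss
  have hsm : ∀ (c : ℝ) (T : E →L[ℂ] E), 0 ≤ c → T.IsPositive → (c • T).IsPositive := by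
    intro c T hc hT
    have h1 : c • T = (c : ℂ) • T := by ext z; simp
    rw [h1]
    exact hT.smul_of_nonneg (by exact_mod_cast hc)
  refine ⟨?_, ?_, ?_⟩
  · exact (hsm _ _ hs hx.1).add (hsm _ _ hs' hy.1)
  · exact (hsm _ _ hs hx.2.1).add (hsm _ _ hs' hy.2.1)
  · have h1 := hx.2.2
    have h2 := hy.2.2
    simp only [Prod.fst_add, Prod.snd_add, Prod.smul_fst, Prod.smul_snd, map_add, map_smul,
      smul_eq_mul]
    linear_combination s * h1 + s' * h2 + hss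

theorem sq_norm_convex {V : Type} [NormedAddCommGroup V] [InnerProductSpace ℂ V] (u v : V) (s s' : ℝ)
    (hs : 0 ≤ s) (hs' : 0 ≤ s') (hss : s + s' = 1) :
    ‖s • u + s' • v‖ ^ 2 ≤ s * ‖u‖ ^ 2 + s' * ‖v‖ ^ 2 := by
  have h1 : ‖s • u + s' • v‖ ≤ s * ‖u‖ + s' * ‖v‖ := by
    refine (norm_add_le _ _).trans ?_
    rw [norm_smul, norm_smul, Real.norm_of_nonneg hs, Real.norm_of_nonneg hs']
  have h2 : ‖s • u + s' • v‖ ^ 2 ≤ (s * ‖u‖ + s' * ‖v‖) ^ 2 :=
    pow_le_pow_left₀ (norm_nonneg _) h1 2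
  have h3 : s' = 1 - s := by linarith
  subst h3
  nlinarith [mul_nonneg hs hs', sq_nonneg (‖u‖ - ‖v‖), mul_nonneg (mul_nonneg hs hs') (sq_nonneg (‖u‖ - ‖v‖))]

theorem fv_add (a : ι → (E →L[ℂ] E)) (t : ℝ) (b : ι → (E →L[ℂ] E))
    (x y : (E →L[ℂ] E) × (E →L[ℂ] E)) : fv a t b (x + y) = fv a t b x + fv a t b y := by
  have := fv_affine a t b x y 1 1
  simpa using this

theorem fv_sum (a : ι → (E →L[ℂ] E)) (t : ℝ) (b : ι → (E →L[ℂ] E)) {m : ℕ}
    (x : Fin m → (E →L[ℂ] E) × (E →L[ℂ] E)) : fv a t b (∑ k, x k) = ∑ k, fv a t b (x k) := by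
  have h0 : fv a t b 0 = 0 := by
    have := fv_add a t b 0 0
    rw [add_zero] at this
    linarith
  let φ : ((E →L[ℂ] E) × (E →L[ℂ] E)) →+ ℝ :=
    { toFun := fv a t b, map_zero' := h0, map_add' := fv_add a t b }
  exact map_sum φ x Finset.univ

/-- the convexity inequality -/
def Cvx (a : ι → (E →L[ℂ] E)) (t : ℝ) (b c : ι → (E →L[ℂ] E)) (s s' : ℝ)
    (x : (E →L[ℂ] E) × (E →L[ℂ] E)) : Prop :=
  fv a t (s • b + s' • c) x ≤ s * fv a t b x + s' * fv a t c x

theorem cvx1 (a : ι → (E →L[ℂ] E)) {t : ℝ} (ht : 0 < t) (b c : ι → (E →L[ℂ] E)) {s s' : ℝ}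
    (hs : 0 ≤ s) (hs' : 0 ≤ s') (hss : s + s' = 1) (η : E) :
    Cvx a t b c s s' (rankOne ℂ η η, 0) := by
  unfold Cvx
  rw [fv_rank1, fv_rank1, fv_rank1]
  have h1 : ∀ i, ‖((s • b + s' • c) i).adjoint η‖ ^ 2 ≤
      s * ‖(b i).adjoint η‖ ^ 2 + s' * ‖(c i).adjoint η‖ ^ 2 := by
    intro i
    have h2 : ((s • b + s' • c) i).adjoint η = s • (b i).adjoint η + s' • (c i).adjoint η := by
      have h3 : (s • b + s' • c) i = (s : ℂ) • b i + (s' : ℂ) • c i := by
        ext z; simp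
      rw [h3, map_add, map_smulₛₗ, map_smulₛₗ]
      simp
    rw [h2]
    exact sq_norm_convex _ _ s s' hs hs' hss
  have h4 := Finset.sum_le_sum (fun i (_ : i ∈ Finset.univ) => h1 i)
  rw [Finset.sum_add_distrib, ← Finset.mul_sum, ← Finset.mul_sum] at h4
  have h5 := mul_le_mul_of_nonneg_left h4 (inv_pos.mpr ht).le
  linarith

theorem cvx2 (a : ι → (E →L[ℂ] E)) {t : ℝ} (ht : 0 < t) (b c : ι → (E →L[ℂ] E)) {s s' : ℝ}
    (hs : 0 ≤ s) (hs' : 0 ≤ s') (hss : s + s' = 1) (η : E) :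
    Cvx a t b c s s' (0, rankOne ℂ η η) := by
  unfold Cvx
  rw [fv_rank2, fv_rank2, fv_rank2]
  have h1 : ∀ i, ‖(a i - (s • b + s' • c) i) η‖ ^ 2 ≤
      s * ‖(a i - b i) η‖ ^ 2 + s' * ‖(a i - c i) η‖ ^ 2 := by
    intro i
    have h2 : (a i - (s • b + s' • c) i) η = s • (a i - b i) η + s' • (a i - c i) η := by
      have h3 : a i η = s • a i η + s' • a i η := by rw [← add_smul, hss, one_smul]
      simp only [_root_.sub_apply, Pi.add_apply, Pi.smul_apply,
        _root_.add_apply, _root_.smul_apply, smul_sub]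
      nth_rewrite 1 [h3]
      abel
    rw [h2]
    exact sq_norm_convex _ _ s s' hs hs' hss
  have h4 := Finset.sum_le_sum (fun i (_ : i ∈ Finset.univ) => h1 i)
  rw [Finset.sum_add_distrib, ← Finset.mul_sum, ← Finset.mul_sum] at h4
  have h5 := mul_le_mul_of_nonneg_left h4 ht.le
  linarith

theorem cvx_sum (a : ι → (E →L[ℂ] E)) (t : ℝ) (b c : ι → (E →L[ℂ] E)) (s s' : ℝ) {m : ℕ}
    (x : Fin m → (E →L[ℂ] E) × (E →L[ℂ] E)) (h : ∀ k, Cvx a t b c s s' (x k)) :
    Cvx a t b c s s' (∑ k, x k) := by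
  unfold Cvx at h ⊢
  rw [fv_sum, fv_sum, fv_sum, Finset.mul_sum, Finset.mul_sum, ← Finset.sum_add_distrib]
  exact Finset.sum_le_sum fun k _ => h k

theorem fv_convex (a : ι → (E →L[ℂ] E)) {t : ℝ} (ht : 0 < t)
    {x : (E →L[ℂ] E) × (E →L[ℂ] E)} (hx : x ∈ prs E) :
    ConvexOn ℝ Set.univ (fun b => fv a t b x) := by
  refine ⟨convex_univ, ?_⟩
  intro b _ c _ s s' hs hs' hss
  obtain ⟨m, u, hu⟩ := ContinuousLinearMap.isPositive_iff_eq_sum_rankOne.mp hx.1
  obtain ⟨n, v, hv⟩ := ContinuousLinearMap.isPositive_iff_eq_sum_rankOne.mp hx.2.1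
  have hx1 : x = (∑ k : Fin m, (rankOne ℂ (u k) (u k), (0 : E →L[ℂ] E))) +
      ∑ k : Fin n, ((0 : E →L[ℂ] E), rankOne ℂ (v k) (v k)) := by
    apply Prod.ext
    · simp [Prod.fst_sum, hu]
    · simp [Prod.snd_sum, hv]
  have h1 := cvx_sum a t b c s s' _ (fun k : Fin m => cvx1 a ht b c hs hs' hss (u k))
  have h2 := cvx_sum a t b c s s' _ (fun k : Fin n => cvx2 a ht b c hs hs' hss (v k))
  unfold Cvx at h1 h2
  simp only [smul_eq_mul]
  rw [hx1, fv_add, fv_add, fv_add]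
  linarith

theorem fv_cont_x (a : ι → (E →L[ℂ] E)) (t : ℝ) (b : ι → (E →L[ℂ] E)) :
    Continuous (fun x => fv a t b x) := by
  unfold fv
  refine (continuous_const.mul (continuous_finsetSum _ fun i _ => tr_continuous.comp ?_)).add
    (continuous_const.mul (continuous_finsetSum _ fun i _ => tr_continuous.comp ?_))
  · exact continuous_fst.clm_comp continuous_const
  · exact continuous_snd.clm_comp continuous_const

theorem fv_cont_b (a : ι → (E →L[ℂ] E)) (t : ℝ) (x : (E →L[ℂ] E) × (E →L[ℂ] E)) :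
    Continuous (fun b => fv a t b x) := by
  unfold fv
  refine (continuous_const.mul (continuous_finsetSum _ fun i _ => tr_continuous.comp ?_)).add
    (continuous_const.mul (continuous_finsetSum _ fun i _ => tr_continuous.comp ?_))
  · exact continuous_const.clm_comp ((continuous_apply i).clm_comp
      (ContinuousLinearMap.adjoint.continuous.comp (continuous_apply i)))
  · exact continuous_const.clm_comp
      ((ContinuousLinearMap.adjoint.continuous.comp (continuous_const.sub (continuous_apply i))).clm_comp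
        (continuous_const.sub (continuous_apply i)))

/-- approximate solution -/
theorem approx (a : ι → (E →L[ℂ] E)) {ρ t : ℝ} (ht : 0 < t)
    (h : ∀ G F : E →L[ℂ] E, G.IsPositive → F.IsPositive → tr G + tr F = 1 →
      ∃ b : ι → (E →L[ℂ] E), fv a t b (G, F) ≤ ρ) {ε : ℝ} (hε : 0 < ε) :
    ∃ b : ι → (E →L[ℂ] E), ∀ x ∈ prs E, fv a t b x < ρ + ε := by
  rcases (prs E).eq_empty_or_nonempty with hempty | hne
  · refine ⟨0, fun x hx => ?_⟩
    rw [hempty] at hx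
    exact absurd hx (Set.notMem_empty x)
  -- finitely many `b`
  have hcov : ∀ x ∈ prs E, ∃ b : ι → (E →L[ℂ] E), fv a t b x < ρ + ε := by
    intro x hx
    obtain ⟨h1, h2, h3⟩ := hx
    obtain ⟨b, hb⟩ := h x.1 x.2 h1 h2 h3
    exact ⟨b, by have : fv a t b x ≤ ρ := hb; linarith⟩
  choose! β hβ using hcov
  obtain ⟨T, hTX, hT⟩ := prs_compact.elim_nhds_subcover (fun x => {y | fv a t (β x) y < ρ + ε})
    (fun x hx => (isOpen_lt (fv_cont_x a t (β x)) continuous_const).mem_nhds (hβ x hx))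
  have hq : ∀ b ∈ (Set.univ : Set (ι → (E →L[ℂ] E))),
      QuasiconvexOn ℝ (prs E) (fun x => -fv a t b x) := by
    intro b _
    have : ConvexOn ℝ (prs E) (fun x => -fv a t b x) := by
      refine ⟨prs_convex, ?_⟩
      intro x _ y _ s s' _ _ _
      simp only [smul_eq_mul]
      rw [fv_affine]
      linarith
    exact this.quasiconvexOn
  have hfin : ∀ x ∈ prs E, ∃ b ∈ β '' (T : Set ((E →L[ℂ] E) × (E →L[ℂ] E))),
      -(ρ + ε) < -fv a t b x := by
    intro x hx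
    have h1 := hT hx
    simp only [Set.mem_iUnion] at h1
    obtain ⟨y, hy, h2⟩ := h1
    exact ⟨β y, ⟨y, hy, rfl⟩, by simp only [Set.mem_ofPred_eq] at h2; linarith⟩
  obtain ⟨b, -, hb⟩ := Sion.exists_lt_iInf_of_lt_iInf_of_finite (X := prs E)
    (Y := (Set.univ : Set (ι → (E →L[ℂ] E)))) (f := fun x b => -fv a t b x) hne prs_compact
    (fun b _ => ((fv_cont_x a t b).neg.continuousOn).lowerSemicontinuousOn)
    hq convex_univ
    (fun x _ => ((fv_cont_b a t x).neg.continuousOn).upperSemicontinuousOn)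
    (fun x hx => ((fv_convex a ht hx).neg).quasiconcaveOn) prs_convex
    (T.finite_toSet.image β) (Set.subset_univ _) hfin
  exact ⟨b, fun x hx => by have := hb x hx; linarith⟩

theorem approx' (a : ι → (E →L[ℂ] E)) {ρ t : ℝ} (ht : 0 < t)
    (h : ∀ G F : E →L[ℂ] E, G.IsPositive → F.IsPositive → tr G + tr F = 1 →
      ∃ b : ι → (E →L[ℂ] E), fv a t b (G, F) ≤ ρ) {ε : ℝ} (hε : 0 < ε) :
    ∃ b : ι → (E →L[ℂ] E), (∀ η : E, ∑ i, ‖(b i).adjoint η‖ ^ 2 ≤ (t * (ρ + ε)) * ‖η‖ ^ 2) ∧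
      ∀ η : E, ∑ i, ‖(a i - b i) η‖ ^ 2 ≤ ((ρ + ε) / t) * ‖η‖ ^ 2 := by
  obtain ⟨b, hb⟩ := approx a ht h hε
  have hscale : ∀ (T : ι → (E →L[ℂ] E)) (C : ℝ), (∀ η : E, ‖η‖ = 1 → ∑ i, ‖T i η‖ ^ 2 ≤ C) →
      ∀ η : E, ∑ i, ‖T i η‖ ^ 2 ≤ C * ‖η‖ ^ 2 := by
    intro T C hT η
    by_cases hη : η = 0
    · simp [hη]
    · have hn : ‖η‖ ≠ 0 := norm_ne_zero_iff.mpr hη
      have h1 := hT ((‖η‖⁻¹ : ℂ) • η) (by rw [norm_smul]; simp [hn])
      have h2 : ∀ i, ‖T i ((‖η‖⁻¹ : ℂ) • η)‖ ^ 2 = (‖η‖ ^ 2)⁻¹ * ‖T i η‖ ^ 2 := by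
        intro i
        rw [map_smul, norm_smul, mul_pow]
        simp
      simp only [h2] at h1
      rw [← Finset.mul_sum, inv_mul_le_iff₀ (by positivity)] at h1
      linarith
  refine ⟨b, hscale _ _ fun η hη => ?_, hscale _ _ fun η hη => ?_⟩
  · have h1 := hb (rankOne ℂ η η, 0) ⟨isPositive_rankOne_self η, ContinuousLinearMap.isPositive_zero,
      by rw [tr_rankOne_self, hη]; simp⟩
    rw [fv_rank1, inv_mul_lt_iff₀ ht] at h1
    exact h1.le
  · have h1 := hb (0, rankOne ℂ η η) ⟨ContinuousLinearMap.isPositive_zero, isPositive_rankOne_self η,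
      by rw [tr_rankOne_self, hη]; simp⟩
    rw [fv_rank2] at h1
    rw [le_div_iff₀ ht]
    linarith

theorem exact (a : ι → (E →L[ℂ] E)) {ρ t : ℝ} (hρ : 0 < ρ) (ht : 0 < t)
    (h : ∀ G F : E →L[ℂ] E, G.IsPositive → F.IsPositive → tr G + tr F = 1 →
      ∃ b : ι → (E →L[ℂ] E), fv a t b (G, F) ≤ ρ) :
    ∃ b : ι → (E →L[ℂ] E), (∀ η : E, ∑ i, ‖(b i).adjoint η‖ ^ 2 ≤ (t * ρ) * ‖η‖ ^ 2) ∧
      ∀ η : E, ∑ i, ‖(a i - b i) η‖ ^ 2 ≤ (ρ / t) * ‖η‖ ^ 2 := by
  have hpr : ProperSpace (ι → (E →L[ℂ] E)) := FiniteDimensional.proper_rclike ℂ _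
  choose β hβ1 hβ2 using fun n : ℕ => approx' a ht h (ε := 1 / ((n : ℝ) + 1)) (by positivity)
  have hε : ∀ n : ℕ, 1 / ((n : ℝ) + 1) ≤ 1 := by
    intro n
    rw [div_le_one (by positivity)]
    have : (0 : ℝ) ≤ n := Nat.cast_nonneg n
    linarith
  set R : ℝ := √(t * (ρ + 1)) with hR
  have hbd : ∀ n, β n ∈ Metric.closedBall (0 : ι → (E →L[ℂ] E)) R := by
    intro n
    rw [mem_closedBall_zero_iff, pi_norm_le_iff_of_nonneg (Real.sqrt_nonneg _)]
    intro i
    rw [← LinearIsometryEquiv.norm_map ContinuousLinearMap.adjoint (β n i)]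
    apply ContinuousLinearMap.opNorm_le_bound _ (Real.sqrt_nonneg _)
    intro η
    have h1 : ‖(β n i).adjoint η‖ ^ 2 ≤ (t * (ρ + 1)) * ‖η‖ ^ 2 := by
      calc ‖(β n i).adjoint η‖ ^ 2 ≤ ∑ i, ‖(β n i).adjoint η‖ ^ 2 :=
            Finset.single_le_sum (f := fun i => ‖(β n i).adjoint η‖ ^ 2)
              (fun i _ => sq_nonneg _) (Finset.mem_univ i)
        _ ≤ (t * (ρ + 1 / ((n : ℝ) + 1))) * ‖η‖ ^ 2 := hβ1 n η
        _ ≤ (t * (ρ + 1)) * ‖η‖ ^ 2 := by
            have := hε n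
            gcongr
    have h2 : ‖(β n i).adjoint η‖ ^ 2 ≤ (R * ‖η‖) ^ 2 := by
      rw [mul_pow, hR, Real.sq_sqrt (by positivity)]
      exact h1
    exact le_of_sq_le_sq h2 (by positivity)
  obtain ⟨b, -, φ, hφ, hlim⟩ := (isCompact_closedBall (0 : ι → (E →L[ℂ] E)) R).tendsto_subseq hbd
  have hε0 : Filter.Tendsto (fun n : ℕ => 1 / (((φ n : ℕ) : ℝ) + 1)) Filter.atTop (nhds 0) :=
    tendsto_one_div_add_atTop_nhds_zero_nat.comp hφ.tendsto_atTop
  refine ⟨b, fun η => ?_, fun η => ?_⟩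
  · have hc : Continuous (fun b : ι → (E →L[ℂ] E) => ∑ i, ‖(b i).adjoint η‖ ^ 2) := by
      refine continuous_finsetSum _ fun i _ => ?_
      have h1 : Continuous (fun b : ι → (E →L[ℂ] E) => (b i).adjoint) :=
        ContinuousLinearMap.adjoint.continuous.comp (continuous_apply i)
      exact ((h1.clm_apply continuous_const).norm).pow 2
    have h1 : Filter.Tendsto (fun n => ∑ i, ‖(β (φ n) i).adjoint η‖ ^ 2) Filter.atTop
        (nhds (∑ i, ‖(b i).adjoint η‖ ^ 2)) := (hc.tendsto b).comp hlim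
    have h2 : Filter.Tendsto (fun n => (t * (ρ + 1 / (((φ n : ℕ) : ℝ) + 1))) * ‖η‖ ^ 2) Filter.atTop
        (nhds ((t * (ρ + 0)) * ‖η‖ ^ 2)) :=
      ((tendsto_const_nhds.add hε0).const_mul t).mul_const _
    rw [add_zero] at h2
    exact le_of_tendsto_of_tendsto' h1 h2 (fun n => hβ1 (φ n) η)
  · have hc : Continuous (fun b : ι → (E →L[ℂ] E) => ∑ i, ‖(a i - b i) η‖ ^ 2) := by
      refine continuous_finsetSum _ fun i _ => ?_
      have h1 : Continuous (fun b : ι → (E →L[ℂ] E) => a i - b i) :=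
        continuous_const.sub (continuous_apply i)
      exact ((h1.clm_apply continuous_const).norm).pow 2
    have h1 : Filter.Tendsto (fun n => ∑ i, ‖(a i - β (φ n) i) η‖ ^ 2) Filter.atTop
        (nhds (∑ i, ‖(a i - b i) η‖ ^ 2)) := (hc.tendsto b).comp hlim
    have h2 : Filter.Tendsto (fun n => ((ρ + 1 / (((φ n : ℕ) : ℝ) + 1)) / t) * ‖η‖ ^ 2) Filter.atTop
        (nhds (((ρ + 0) / t) * ‖η‖ ^ 2)) :=
      ((tendsto_const_nhds.add hε0).div_const t).mul_const _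
    rw [add_zero] at h2
    exact le_of_tendsto_of_tendsto' h1 h2 (fun n => hβ2 (φ n) η)

end

end ZZ508

open ZZ508 in
theorem bp_decfin (h : Z_decpt) : Z_decfin := by
  intro E _ _ _ ι _ a ρ t hρ ht hyp
  have h1 := h E ι a ρ t hρ ht hyp
  exact ZZ508.exact a hρ ht (fun G F hG hF hGF => h1 G F hG hF hGF)

end H97R2.BP
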